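import Mathlib
import Pool.Agent.R291.RMW.W4
import Pool.Agent.R528.RM.Sp3

set_option autoImplicit false

/-!
# The two Oppermann intervals in random models of the primes

The question is whether, for every `k`, both intervals `[n² - n, n²]` and `[n², n² + n]` contain at
least `k` primes for all large `n`.  We determine the exact size of the fluctuations of the numbers of
members of these two intervals in EVERY sequential random model of the primes.  In these models the
integers are decided one after the other, only integers coprime to a fixed `Q` can be chosen, and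
the conditional probability of choosing `n + 1` (coprime to `Q`) given the past is asymptotic to
`(Q / φ(Q)) / log n`; no independence is assumed (for `Q = 1` Cramér's model and the Hawkins random
sieve are examples).  Almost surely, in both intervals the number of members differs from the sum
of the conditional probabilities by at most `(1 + o(1)) √n`, the constant `1` is best possible (the
surplus `(1 - o(1)) √n` occurs for some `n` in every interval `(2^j, 2^(j+1)]` with `j` large), and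
both numbers are asymptotic to `n / (2 log n)`; in particular both intervals contain at least `k`
members for all large `n`, for every `k`.
-/

open MeasureTheory Filter
open scoped Topology

namespace Pool.Agent.Results.MP_1e9cc8_nt.FluctuationsInRandomModels

/-- the number of elements of `S` in the closed interval `[a, b]` -/
noncomputable def countIn (S : Set ℕ) (a b : ℕ) : ℕ := Set.ncard {m : ℕ | m ∈ S ∧ a ≤ m ∧ m ≤ b}

/-- the sum over `a ≤ m ≤ b` of the conditional probabilities of `A m` given `ℱ (m - 1)` -/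
noncomputable def condSum {Ω : Type} {mΩ : MeasurableSpace Ω} (μ : Measure Ω) (ℱ : Filtration ℕ mΩ)
    (A : ℕ → Set Ω) (a b : ℕ) (ω : Ω) : ℝ :=
  ∑ m ∈ Finset.Icc a b, (μ[(A m).indicator (fun _ => (1 : ℝ)) | ℱ (m - 1)]) ω

open Pool.Agent.R528.RM Pool.Agent.R291.RMW

lemma Icc_eq {a b : ℕ} (ha : 1 ≤ a) : Finset.Icc a b = Finset.Ioc (a - 1) b := by
  ext m
  rw [Finset.mem_Icc, Finset.mem_Ioc]
  omega

lemma countIn_eq {Ω : Type} {A : ℕ → Set Ω} {ω : Ω} {a b : ℕ} (ha : 1 ≤ a) :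
    (countIn {k | ω ∈ A k} a b : ℝ) = Ncl A (Finset.Ioc (a - 1) b) ω := by
  rw [Ncl_eq]
  unfold countIn
  congr 2
  ext m
  simp only [Set.mem_ofPred_eq, Finset.mem_Ioc]
  refine and_congr_right fun _ => ?_
  omega

lemma condSum_eq {Ω : Type} {mΩ : MeasurableSpace Ω} {μ : Measure Ω} {ℱ : Filtration ℕ mΩ}
    {A : ℕ → Set Ω} {ω : Ω} {a b : ℕ} (ha : 1 ≤ a) :
    condSum μ ℱ A a b ω = VS μ ℱ A (Finset.Ioc (a - 1) b) ω := by
  unfold condSum VS
  rw [Icc_eq ha]
  refine Finset.sum_congr rfl fun m hm => ?_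
  have := (Finset.mem_Ioc.1 hm).1
  unfold dens
  rw [show m - 1 + 1 = m by omega]

lemma diff_eq {Ω : Type} {mΩ : MeasurableSpace Ω} {μ : Measure Ω} [IsProbabilityMeasure μ] {ℱ : Filtration ℕ mΩ}
    {A : ℕ → Set Ω} {ω : Ω} {a b : ℕ} (ha : 1 ≤ a) :
    (countIn {k | ω ∈ A k} a b : ℝ) - condSum μ ℱ A a b ω = CS μ ℱ A (Finset.Ioc (a - 1) b) ω := by
  rw [countIn_eq ha, condSum_eq ha, CS_eq]

lemma wd_left : Wd (fun n => n ^ 2 - n - 1) (fun n => n ^ 2) 2 := by
  have hsq := log_pow_ratio 2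
  push_cast at hsq
  have hc : ∀ n : ℕ, 2 ≤ n → ((n ^ 2 - n - 1 : ℕ) : ℝ) = (n : ℝ) ^ 2 - n - 1 := by
    intro n hn
    have : n + 1 ≤ n ^ 2 := by nlinarith
    rw [Nat.sub_sub, Nat.cast_sub this]
    push_cast
    ring
  refine ⟨by norm_num, ?_, ?_, ?_, ?_, ?_⟩
  · exact Eventually.of_forall fun n => by omega
  · apply log_ratio_of_close hsq
    filter_upwards [eventually_ge_atTop 4] with n hn
    have hn' : (4 : ℝ) ≤ n := by exact_mod_cast hn
    rw [hc n (by omega)]
    exact ⟨by positivity, by nlinarith, by nlinarith⟩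
  · apply log_ratio_of_close hsq
    filter_upwards [eventually_ge_atTop 4] with n hn
    have hn' : (4 : ℝ) ≤ n := by exact_mod_cast hn
    push_cast
    exact ⟨by positivity, by nlinarith, by nlinarith⟩
  · refine tendsto_atTop_mono' _ ?_ (lin_log_top one_pos)
    filter_upwards [eventually_ge_atTop 4] with n hn
    rw [hc n (by omega)]
    apply div_le_div_of_nonneg_right _ (by positivity)
    push_cast
    linarith
  · filter_upwards [eventually_ge_atTop 4] with n hn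
    have : (n + 1) ^ 2 = n ^ 2 + 2 * n + 1 := by ring
    omega

lemma wd_right : Wd (fun n => n ^ 2 - 1) (fun n => n ^ 2 + n) 2 := by
  have hsq := log_pow_ratio 2
  push_cast at hsq
  have hc : ∀ n : ℕ, 2 ≤ n → ((n ^ 2 - 1 : ℕ) : ℝ) = (n : ℝ) ^ 2 - 1 := by
    intro n hn
    have : 1 ≤ n ^ 2 := by nlinarith
    rw [Nat.cast_sub this]
    push_cast
    ring
  refine ⟨by norm_num, ?_, ?_, ?_, ?_, ?_⟩
  · exact Eventually.of_forall fun n => by omega
  · apply log_ratio_of_close hsq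
    filter_upwards [eventually_ge_atTop 4] with n hn
    have hn' : (4 : ℝ) ≤ n := by exact_mod_cast hn
    rw [hc n (by omega)]
    exact ⟨by positivity, by nlinarith, by nlinarith⟩
  · apply log_ratio_of_close hsq
    filter_upwards [eventually_ge_atTop 4] with n hn
    have hn' : (4 : ℝ) ≤ n := by exact_mod_cast hn
    push_cast
    exact ⟨by positivity, by nlinarith, by nlinarith⟩
  · refine tendsto_atTop_mono' _ ?_ (lin_log_top one_pos)
    filter_upwards [eventually_ge_atTop 4] with n hn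
    rw [hc n (by omega)]
    apply div_le_div_of_nonneg_right _ (by positivity)
    push_cast
    linarith
  · filter_upwards [eventually_ge_atTop 4] with n hn
    have : (n + 1) ^ 2 = n ^ 2 + 2 * n + 1 := by ring
    omega

/-- windows of length `n + 1` -/
lemma law_of {Ω : Type} {mΩ : MeasurableSpace Ω} {μ : Measure Ω} [IsProbabilityMeasure μ]
    {ℱ : Filtration ℕ mΩ} {A : ℕ → Set Ω} (hA : ∀ n, MeasurableSet[ℱ n] (A n)) {W : ℕ} (hW : 0 < W)
    (hd : ∀ᵐ ω ∂μ, ∀ ε : ℝ, 0 < ε → ∀ᶠ n : ℕ in atTop, |dens μ ℱ A n ω - rhoW W (n + 1)| ≤ ε * rhoW W (n + 1))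
    {a b : ℕ → ℕ} (h : Wd (fun n => a n - 1) b 2) (ha : ∀ᶠ n in atTop, 1 ≤ a n)
    (hlen : ∀ᶠ n in atTop, (b n : ℝ) - ((a n - 1 : ℕ) : ℝ) = n + 1) :
    ∀ᵐ ω ∂μ, (∀ ε : ℝ, 0 < ε →
        (∀ᶠ n : ℕ in atTop, |(countIn {k | ω ∈ A k} (a n) (b n) : ℝ) - condSum μ ℱ A (a n) (b n) ω| ≤ (1 + ε) * √(n : ℝ)) ∧
        (∀ᶠ j : ℕ in atTop, ∃ n : ℕ, 2 ^ j < n ∧ n ≤ 2 ^ (j + 1) ∧
          condSum μ ℱ A (a n) (b n) ω + (1 - ε) * √(n : ℝ) ≤ countIn {k | ω ∈ A k} (a n) (b n))) ∧
      Tendsto (fun n : ℕ => (countIn {k | ω ∈ A k} (a n) (b n) : ℝ) / ((n : ℝ) / (2 * Real.log n))) atTop (𝓝 1) := by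
  filter_upwards [wd_law (μ := μ) (ℱ := ℱ) hA hW hd h, wd_count (μ := μ) (ℱ := ℱ) hA hW hd h] with ω h1 h2
  refine ⟨fun ε hε => ⟨?_, ?_⟩, ?_⟩
  · have hε2 : 0 < ε / 4 := by positivity
    have hη : 0 < min (ε / 4) 1 := lt_min hε2 one_pos
    filter_upwards [(h1 _ hη).1, ha, hlen, eventually_ge_atTop (⌈4 / ε⌉₊ + 1)] with n g1 g2 g3 g4
    rw [diff_eq g2]
    have hn : (4 / ε : ℝ) ≤ n := by
      have := Nat.le_ceil (4 / ε)
      have : ((⌈4 / ε⌉₊ + 1 : ℕ) : ℝ) ≤ n := by exact_mod_cast g4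
      push_cast at this
      linarith
    have hn0 : (0 : ℝ) < n := lt_of_lt_of_le (by positivity) hn
    refine g1.trans ?_
    rw [g3, show (2 : ℝ) / 2 * ((n : ℝ) + 1) = n + 1 by ring]
    have e1 : √((n : ℝ) + 1) ≤ (1 + ε / 4) * √(n : ℝ) := by
      rw [Real.sqrt_le_left (by positivity), mul_pow, Real.sq_sqrt hn0.le]
      rw [div_le_iff₀ hε] at hn
      nlinarith
    have e2 : min (ε / 4) 1 ≤ ε / 4 := min_le_left _ _
    have e3 : min (ε / 4) 1 ≤ 1 := min_le_right _ _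
    calc (1 + min (ε / 4) 1) * √((n : ℝ) + 1) ≤ (1 + min (ε / 4) 1) * ((1 + ε / 4) * √(n : ℝ)) :=
          mul_le_mul_of_nonneg_left e1 (by linarith)
      _ = (1 + (min (ε / 4) 1 + ε / 4 + ε / 4 * min (ε / 4) 1)) * √(n : ℝ) := by ring
      _ ≤ (1 + ε) * √(n : ℝ) := by
          apply mul_le_mul_of_nonneg_right _ (Real.sqrt_nonneg _)
          have : ε / 4 * min (ε / 4) 1 ≤ ε / 4 * 1 := mul_le_mul_of_nonneg_left e3 hε2.le
          linarith
  · have hη : 0 < min ε 1 := lt_min hε one_pos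
    obtain ⟨n₀, hn₀⟩ := eventually_atTop.1 (ha.and hlen)
    have h2j : Tendsto (fun j : ℕ => 2 ^ j) atTop atTop := tendsto_pow_atTop_atTop_of_one_lt (by norm_num)
    filter_upwards [(h1 _ hη).2, h2j.eventually_ge_atTop n₀] with j ⟨n, g1, g2, g3⟩ g4
    refine ⟨n, g1, g2, ?_⟩
    obtain ⟨k1, k2⟩ := hn₀ n (by omega)
    have k3 : CS μ ℱ A (Finset.Ioc (a n - 1) (b n)) ω = (countIn {k | ω ∈ A k} (a n) (b n) : ℝ) - condSum μ ℱ A (a n) (b n) ω :=
      (diff_eq k1).symm
    rw [k3, k2, show (2 : ℝ) / 2 * ((n : ℝ) + 1) = n + 1 by ring] at g3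
    have e1 : √(n : ℝ) ≤ √((n : ℝ) + 1) := Real.sqrt_le_sqrt (by linarith)
    have e2 : min ε 1 ≤ ε := min_le_left _ _
    have e3 : min ε 1 ≤ 1 := min_le_right _ _
    have e4 : (1 - ε) * √(n : ℝ) ≤ (1 - min ε 1) * √(n : ℝ) := mul_le_mul_of_nonneg_right (by linarith) (Real.sqrt_nonneg _)
    have e5 : (1 - min ε 1) * √(n : ℝ) ≤ (1 - min ε 1) * √((n : ℝ) + 1) := mul_le_mul_of_nonneg_left e1 (by linarith)
    linarith
  · have h3 : Tendsto (fun n : ℕ => ((n : ℝ) + 1) / n) atTop (𝓝 1) := by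
      have h4 : Tendsto (fun n : ℕ => 1 + 1 / (n : ℝ)) atTop (𝓝 (1 + 0)) := (tendsto_one_div_atTop_nhds_zero_nat).const_add 1
      rw [add_zero] at h4
      refine h4.congr' ?_
      filter_upwards [eventually_gt_atTop 0] with n hn
      have : (n : ℝ) ≠ 0 := by exact_mod_cast hn.ne'
      field_simp
    have h5 := h2.mul h3
    rw [one_mul] at h5
    refine h5.congr' ?_
    filter_upwards [ha, hlen, tendsto_log.eventually_gt_atTop 0, eventually_gt_atTop 0] with n g1 g2 g3 g4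
    have hn0 : (0 : ℝ) < n := by exact_mod_cast g4
    rw [g2, countIn_eq g1]
    field_simp

end Pool.Agent.Results.MP_1e9cc8_nt.FluctuationsInRandomModels

open Pool.Agent.Results.MP_1e9cc8_nt.FluctuationsInRandomModels

/-- Let `A n` be the event that `n` belongs to a random set adapted to a filtration `ℱ`, let
`Q ≥ 1`, let no integer which is not coprime to `Q` be chosen, and let the conditional probability of
`A (n + 1)` given `ℱ n`, times `log n`, tend to `Q / φ(Q)` along the `n` with `n + 1` coprime to `Q`,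
almost surely.  Then almost surely, for both intervals `[n² - n, n²]` and `[n², n² + n]`: for every
`ε > 0` the number of members differs from the sum of the conditional probabilities by at most
`(1 + ε) √n` for all large `n`; for every `ε > 0` and all large `j` it exceeds this sum by at least
`(1 - ε) √n` for some `n` with `2 ^ j < n ≤ 2 ^ (j + 1)`; and it is asymptotic to `n / (2 log n)`.
In particular, for every `k` both intervals contain at least `k` members for all large `n`. -/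
theorem Pool.Agent.Results.MP_1e9cc8_nt.FluctuationsInRandomModels.result
    {Ω : Type} [mΩ : MeasurableSpace Ω] (μ : Measure Ω) [IsProbabilityMeasure μ]
    (ℱ : Filtration ℕ mΩ) (A : ℕ → Set Ω) (hA : ∀ n, MeasurableSet[ℱ n] (A n))
    (Q : ℕ) (hQ : 0 < Q) (hcop : ∀ n, ¬ Nat.Coprime n Q → A n = ∅)
    (hd : ∀ᵐ ω ∂μ, Tendsto (fun n : ℕ =>
      (μ[(A (n + 1)).indicator (fun _ => (1 : ℝ)) | ℱ n]) ω * Real.log n)
      (atTop ⊓ 𝓟 {n : ℕ | Nat.Coprime (n + 1) Q}) (𝓝 ((Q : ℝ) / Nat.totient Q))) :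
    ∀ᵐ ω ∂μ,
      (∀ ε : ℝ, 0 < ε →
        (∀ᶠ n : ℕ in atTop,
          |(countIn {k | ω ∈ A k} (n ^ 2 - n) (n ^ 2) : ℝ) - condSum μ ℱ A (n ^ 2 - n) (n ^ 2) ω| ≤
            (1 + ε) * √(n : ℝ)) ∧
        (∀ᶠ j : ℕ in atTop, ∃ n : ℕ, 2 ^ j < n ∧ n ≤ 2 ^ (j + 1) ∧
          condSum μ ℱ A (n ^ 2 - n) (n ^ 2) ω + (1 - ε) * √(n : ℝ) ≤
            countIn {k | ω ∈ A k} (n ^ 2 - n) (n ^ 2)) ∧
        (∀ᶠ n : ℕ in atTop,
          |(countIn {k | ω ∈ A k} (n ^ 2) (n ^ 2 + n) : ℝ) - condSum μ ℱ A (n ^ 2) (n ^ 2 + n) ω| ≤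
            (1 + ε) * √(n : ℝ)) ∧
        (∀ᶠ j : ℕ in atTop, ∃ n : ℕ, 2 ^ j < n ∧ n ≤ 2 ^ (j + 1) ∧
          condSum μ ℱ A (n ^ 2) (n ^ 2 + n) ω + (1 - ε) * √(n : ℝ) ≤
            countIn {k | ω ∈ A k} (n ^ 2) (n ^ 2 + n))) ∧
      Tendsto (fun n : ℕ => (countIn {k | ω ∈ A k} (n ^ 2 - n) (n ^ 2) : ℝ) / ((n : ℝ) / (2 * Real.log n)))
        atTop (𝓝 1) ∧
      Tendsto (fun n : ℕ => (countIn {k | ω ∈ A k} (n ^ 2) (n ^ 2 + n) : ℝ) / ((n : ℝ) / (2 * Real.log n)))
        atTop (𝓝 1) ∧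
      (∀ k : ℕ, ∀ᶠ n : ℕ in atTop, k ≤ countIn {k | ω ∈ A k} (n ^ 2 - n) (n ^ 2) ∧
        k ≤ countIn {k | ω ∈ A k} (n ^ 2) (n ^ 2 + n)) := by
  have hprof := Pool.Agent.R528.RM.dens_profile (μ := μ) (ℱ := ℱ) hA Q hQ hcop hd
  have hl := law_of (μ := μ) (ℱ := ℱ) hA hQ hprof (a := fun n => n ^ 2 - n) (b := fun n => n ^ 2) wd_left (by
      filter_upwards [eventually_ge_atTop 2] with n hn
      have : n + 1 ≤ n ^ 2 := by nlinarith
      omega) (by
      filter_upwards [eventually_ge_atTop 2] with n hn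
      have h1 : n + 1 ≤ n ^ 2 := by nlinarith
      have h2 : ((n ^ 2 - n - 1 : ℕ) : ℝ) = (n : ℝ) ^ 2 - n - 1 := by
        rw [Nat.sub_sub, Nat.cast_sub h1]
        push_cast
        ring
      rw [h2]
      push_cast
      ring)
  have hr := law_of (μ := μ) (ℱ := ℱ) hA hQ hprof (a := fun n => n ^ 2) (b := fun n => n ^ 2 + n) wd_right (by
      filter_upwards [eventually_ge_atTop 2] with n hn
      nlinarith) (by
      filter_upwards [eventually_ge_atTop 2] with n hn
      have h1 : 1 ≤ n ^ 2 := by nlinarith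
      have h2 : ((n ^ 2 - 1 : ℕ) : ℝ) = (n : ℝ) ^ 2 - 1 := by
        rw [Nat.cast_sub h1]
        push_cast
        ring
      rw [h2]
      push_cast
      ring)
  filter_upwards [hl, hr] with ω h1 h2
  refine ⟨fun ε hε => ⟨(h1.1 ε hε).1, (h1.1 ε hε).2, (h2.1 ε hε).1, (h2.1 ε hε).2⟩, h1.2, h2.2, fun k => ?_⟩
  have hbig : Tendsto (fun n : ℕ => (n : ℝ) / (2 * Real.log n)) atTop atTop := by
    have := Pool.Agent.R291.RMW.lin_log_top (show (0 : ℝ) < 1 / 2 by norm_num)
    refine tendsto_atTop_mono' _ ?_ this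
    filter_upwards [Pool.Agent.R528.RM.tendsto_log.eventually_ge_atTop 1] with n hn
    rw [show (n : ℝ) / (2 * Real.log n) = (1 / 2 * n) / Real.log n by field_simp]
    apply div_le_div_of_nonneg_left (by positivity) (by linarith)
    nlinarith
  have g1 := h1.2.pos_mul_atTop one_pos hbig
  have g2 := h2.2.pos_mul_atTop one_pos hbig
  filter_upwards [g1.eventually_ge_atTop (k : ℝ), g2.eventually_ge_atTop (k : ℝ), hbig.eventually_gt_atTop 0] with n k1 k2 k3
  rw [div_mul_cancel₀ _ k3.ne'] at k1 k2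
  exact ⟨by exact_mod_cast k1, by exact_mod_cast k2⟩
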