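import Mathlib
import Pool.Agent.R935.JL.Exact

set_option autoImplicit false

/-!
# Consecutive rough integers in the Oppermann intervals

Sifting by the primes up to a small power of `n`: in `[n ^ 2 - n, n ^ 2]` and `[n ^ 2, n ^ 2 + n]`, and in all
parts of these intervals of length at least `n ^ θ`, the residues modulo `q` and the gaps of any number of
consecutive remaining integers (which include all the primes) are asymptotically independent.
-/

namespace Pool.Agent.Results.MP_1e9cc8_nt.JointLaw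

open Finset Filter
open Pool.Agent.R463.PS Pool.Agent.R935.JL

/-- `m` has no prime factor `p ≤ n ^ (1 / r)` -/
def Rough (n r m : ℕ) : Prop := ∀ p : ℕ, p.Prime → (p : ℝ) ≤ (n : ℝ) ^ (1 / (r : ℝ)) → ¬ p ∣ m

/-- the first rough integer after `m` -/
noncomputable def next (n r m : ℕ) : ℕ := sInf {l | m < l ∧ Rough n r l}

/-- the density: the product of `1 - 1 / p` over the primes `p ≤ n ^ (1 / r)` -/
noncomputable def V (n r : ℕ) : ℝ :=
  ∏ p ∈ (Icc 1 ⌊(n : ℝ) ^ (1 / (r : ℝ))⌋₊).filter Nat.Prime, (1 - 1 / (p : ℝ))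

/-- The number of the rough `m` in `(Z, Z + Y]` with `m ≡ a (mod q)` such that the next `K` rough
`m_1 < m_2 < ... < m_K` after `m = m_0` satisfy `m_(j + 1) ≡ b j (mod q)` and
`s j < m_(j + 1) - m_j ≤ t j` for all `j < K`. -/
noncomputable def Runs (n r q K a : ℕ) (b s t : ℕ → ℕ) (Z Y : ℕ) : ℕ :=
  Set.ncard {m : ℕ | Z < m ∧ m ≤ Z + Y ∧ Rough n r m ∧ m % q = a ∧
    ∀ j < K, (next n r)^[j + 1] m % q = b j ∧ s j < (next n r)^[j + 1] m - (next n r)^[j] m ∧
      (next n r)^[j + 1] m - (next n r)^[j] m ≤ t j}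

/-- the same number without the conditions on the gaps -/
noncomputable def Residues (n r q K a : ℕ) (b : ℕ → ℕ) (Z Y : ℕ) : ℕ :=
  Set.ncard {m : ℕ | Z < m ∧ m ≤ Z + Y ∧ Rough n r m ∧ m % q = a ∧
    ∀ j < K, (next n r)^[j + 1] m % q = b j}

/-- the interval `[L, U]` contains `K + 1` consecutive rough integers with residues `a, b 0, ..., b (K - 1)`
modulo `q` -/
def Contains (n r q K a : ℕ) (b : ℕ → ℕ) (L U : ℕ) : Prop :=
  ∃ m : ℕ, L ≤ m ∧ Rough n r m ∧ m % q = a ∧ (∀ j < K, (next n r)^[j + 1] m % q = b j) ∧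
    (next n r)^[K] m ≤ U

lemma rough_iff (n r m : ℕ) : Rough n r m ↔ Sifted idf n r m := (idf_sift n r m).symm

lemma next_eq (n r : ℕ) : next n r = Pool.Agent.R463.PP.next (Sifted idf n r) := by
  funext m
  unfold next Pool.Agent.R463.PP.next
  simp only [rough_iff]

lemma V_eq (n r : ℕ) : V n r = Pool.Agent.R463.PS.V idf n r := V1_eq n r

/-- the reduced residues modulo `q` -/
def Classes (q : ℕ) : Finset ℕ := (range q).filter (fun a => Nat.Coprime q a)

lemma idf_eval (x : ℤ) (i : Fin 1) : (idf i).eval x = x := by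
  have h : idf i = Polynomial.C 1 * Polynomial.X + Polynomial.C 0 := rfl
  rw [h]
  simp

lemma classes_eq (q : ℕ) (_ : 1 ≤ q) : Classes q = Pool.Agent.R463.PP.Cl idf q := by
  classical
  unfold Classes Pool.Agent.R463.PP.Cl
  apply filter_congr
  intro a _
  simp only [idf_eval]
  constructor
  · intro h p hp hpq _ hd
    have h1 : p ∣ a := by exact_mod_cast hd
    have h2 := Nat.dvd_gcd hpq h1
    rw [Nat.Coprime.gcd_eq_one h] at h2
    exact hp.one_lt.ne' (Nat.dvd_one.1 h2)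
  · intro h
    by_contra hne
    obtain ⟨p, hp, hpd⟩ := Nat.exists_prime_and_dvd hne
    exact h p hp (hpd.trans (Nat.gcd_dvd_left _ _)) 0 (by exact_mod_cast hpd.trans (Nat.gcd_dvd_right _ _))

lemma classes_card (q : ℕ) : (Classes q).card = q.totient := rfl

/-- the primes `p > n` are rough -/
lemma rough_prime {n r p : ℕ} (hn : 1 ≤ n) (hr : 1 ≤ r) (hp : p.Prime) (hnp : n < p) : Rough n r p := by
  intro q hq hqX hd
  have h1 : q = p := (Nat.prime_dvd_prime_iff_eq hq hp).1 hd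
  have hX1 : (1 : ℝ) ≤ n := by exact_mod_cast hn
  have hr1 : (1 : ℝ) ≤ r := by exact_mod_cast hr
  have h2 : (n : ℝ) ^ (1 / (r : ℝ)) ≤ n := by
    calc (n : ℝ) ^ (1 / (r : ℝ)) ≤ (n : ℝ) ^ (1 : ℝ) :=
          Real.rpow_le_rpow_of_exponent_le hX1 (by rw [div_le_one (by linarith)]; exact hr1)
      _ = n := Real.rpow_one _
  have h3 : (q : ℝ) ≤ n := hqX.trans h2
  have h4 : q ≤ n := by exact_mod_cast h3
  omega

lemma rough_fewf {n r m : ℕ} (hn : 1 ≤ n) (hr : 1 ≤ r) (hX : ((2 : ℕ) : ℝ) ≤ (n : ℝ) ^ (1 / (r : ℝ)))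
    (hm : m ≠ 0) (hmn : m ≤ n ^ 2 + n) (h : Rough n r m) : m.primeFactorsList.length ≤ 2 * r + 1 := by
  have hr1 : (0 : ℝ) < r := by exact_mod_cast (by omega : 0 < r)
  push_cast at hX
  refine rough_few _ (by linarith) m (2 * r + 1) hm ?_ h
  have e : ((n : ℝ) ^ (1 / (r : ℝ))) ^ r = n := by
    rw [← Real.rpow_natCast, ← Real.rpow_mul (Nat.cast_nonneg _), one_div, inv_mul_cancel₀ hr1.ne',
      Real.rpow_one]
  rw [pow_succ, mul_comm 2 r, pow_mul, e]
  have h1 : (m : ℝ) ≤ n ^ 2 + n := by exact_mod_cast hmn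
  have h2 : (n : ℝ) ≤ n ^ 2 := by
    have : (1 : ℝ) ≤ n := by exact_mod_cast hn
    nlinarith
  have h3 : (n : ℝ) ^ 2 * 2 ≤ n ^ 2 * (n : ℝ) ^ (1 / (r : ℝ)) := mul_le_mul_of_nonneg_left hX (by positivity)
  linarith

/-- **The joint law of consecutive rough integers in the Oppermann intervals.** Let `0 < θ ≤ 1`, `K ≥ 0`,
`q ≥ 1` and `ε > 0`. There is `r₀` such that for all `r ≥ r₀` and all large `n` (rough: without prime factor
`≤ n ^ (1 / r)`):
(1) every prime `p > n` is rough, and every rough `0 < m ≤ n ^ 2 + n` has at most `2 r + 1` prime factors;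
(2) in every interval `(Z, Z + Y]` with `Y ≥ n ^ θ`, for instance in all the parts of that length of
`[n ^ 2 - n, n ^ 2]` and `[n ^ 2, n ^ 2 + n]`, for all reduced residues `a`, `b j` modulo `q` and all bounds
`s j ≤ t j`, the number `Runs` is `Y V / φ(q) ^ (K + 1) * ∏_(j < K) (exp (- V (s j)) - exp (- V (t j)))` up to
`ε Y V`, and the number `Residues` is `Y V / φ(q) ^ (K + 1)` up to `ε Y V`;
(3) for all reduced residues `a`, `b j` modulo `q`, both `[n ^ 2 - n, n ^ 2]` and `[n ^ 2, n ^ 2 + n]` contain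
`K + 1` consecutive rough integers with the residues `a, b 0, ..., b (K - 1)`. -/
theorem result (θ : ℝ) (hθ : 0 < θ) (hθ1 : θ ≤ 1) (K q : ℕ) (hq : 1 ≤ q) (ε : ℝ) (hε : 0 < ε) :
    ∃ r₀ : ℕ, ∀ r : ℕ, r₀ ≤ r → ∀ᶠ n : ℕ in atTop,
      ((∀ p : ℕ, p.Prime → n < p → Rough n r p) ∧
        ∀ m : ℕ, m ≠ 0 → m ≤ n ^ 2 + n → Rough n r m → m.primeFactorsList.length ≤ 2 * r + 1) ∧
      (∀ Z Y : ℕ, (n : ℝ) ^ θ ≤ Y → ∀ a ∈ Classes q, ∀ b : ℕ → ℕ, (∀ j < K, b j ∈ Classes q) →
        (∀ s t : ℕ → ℕ, (∀ j < K, s j ≤ t j) →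
          |(Runs n r q K a b s t Z Y : ℝ) - Y * V n r / q.totient ^ (K + 1) *
            ∏ j ∈ range K, (Real.exp (-(V n r * s j)) - Real.exp (-(V n r * t j)))| ≤
            ε * (Y * V n r)) ∧
        |(Residues n r q K a b Z Y : ℝ) - Y * V n r / q.totient ^ (K + 1)| ≤ ε * (Y * V n r)) ∧
      ∀ a ∈ Classes q, ∀ b : ℕ → ℕ, (∀ j < K, b j ∈ Classes q) →
        Contains n r q K a b (n ^ 2 - n) (n ^ 2) ∧ Contains n r q K a b (n ^ 2) (n ^ 2 + n) := by
  have hq0 : 0 < q.totient := Nat.totient_pos.2 hq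
  have hφ : (0 : ℝ) < (q.totient : ℝ) := by exact_mod_cast hq0
  obtain ⟨η, hη⟩ : ∃ η : ℝ, η = min ε (1 / (2 * (q.totient : ℝ) ^ (K + 1))) := ⟨_, rfl⟩
  have hη0 : 0 < η := by rw [hη]; positivity
  have hηε : η ≤ ε := by rw [hη]; exact min_le_left _ _
  have hηφ : η ≤ 1 / (2 * (q.totient : ℝ) ^ (K + 1)) := by rw [hη]; exact min_le_right _ _
  obtain ⟨r1, h1⟩ := Pool.Agent.R463.PP.joint_full 1 1 q K hq 1 1 θ one_pos one_pos hθ η hη0
  obtain ⟨r2, h2⟩ := count 1 1 θ (1 / 2) hθ (by norm_num)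
  refine ⟨max (max r1 2) r2, fun r hr => ?_⟩
  have hr1 : r1 ≤ r := (le_max_left _ _).trans ((le_max_left _ _).trans hr)
  have hr2' : 2 ≤ r := (le_max_right _ _).trans ((le_max_left _ _).trans hr)
  have hr2 : r2 ≤ r := (le_max_right _ _).trans hr
  obtain ⟨C, hC, hV⟩ := idf_V r hr2'
  obtain ⟨v, hv, hlow⟩ := low (k := 1) (D := 1) r hr2'
  obtain ⟨M, hM⟩ : ∃ M : ℝ, M = 2 * (q.totient : ℝ) ^ (K + 1) * (K + 1) / v := ⟨_, rfl⟩
  have hM0 : 0 < M := by rw [hM]; positivity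
  filter_upwards [h1 r hr1 C, h2 r hr2 C, hV, hlow, logpow_rpow' (1 * 1 + 1) M θ hM0 hθ,
    eventually_ge_atTop 3, ev_large r (by omega) 2] with n h1 h2 hV hlow hM1 hn3 h5
  have hn1 : (1 : ℝ) ≤ n := by exact_mod_cast (by omega : 1 ≤ n)
  have hlogn : 0 < Real.log (n : ℝ) := Real.log_pos (by exact_mod_cast (by omega : 1 < n))
  have hsys : System 1 ((n : ℝ) ^ (1 : ℝ)) ((n : ℝ) ^ (1 : ℝ)) idf :=
    idf_sys _ _ (Real.one_le_rpow hn1 one_pos.le)
  have hlow' := hlow _ _ idf hsys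
  have hV0 : 0 < Pool.Agent.R463.PS.V idf n r := lt_of_lt_of_le (by positivity) hlow'
  have hmain : ∀ Z Y : ℕ, (n : ℝ) ^ θ ≤ Y → ∀ a ∈ Classes q, ∀ b : ℕ → ℕ, (∀ j < K, b j ∈ Classes q) →
        (∀ s t : ℕ → ℕ, (∀ j < K, s j ≤ t j) →
          |(Runs n r q K a b s t Z Y : ℝ) - Y * V n r / q.totient ^ (K + 1) *
            ∏ j ∈ range K, (Real.exp (-(V n r * s j)) - Real.exp (-(V n r * t j)))| ≤
            η * (Y * V n r)) ∧
        |(Residues n r q K a b Z Y : ℝ) - Y * V n r / q.totient ^ (K + 1)| ≤ η * (Y * V n r) := by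
    intro Z Y hY a ha b hb
    rw [← classes_card]
    rw [classes_eq q hq] at ha hb ⊢
    rw [V_eq]
    obtain ⟨g1, g2⟩ := h1 _ hsys hV Z Y hY a ha b hb
    constructor
    · intro s t hst
      have g3 := g1 s t hst
      have e : Runs n r q K a b s t Z Y = Set.ncard {m : ℕ | Z < m ∧ m ≤ Z + Y ∧
          Pool.Agent.R463.PP.Run (Sifted idf n r) q K a b s t m} := by
        unfold Runs Pool.Agent.R463.PP.Run
        rw [next_eq]
        simp only [rough_iff]
      rw [e]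
      exact g3
    · have e : Residues n r q K a b Z Y = Set.ncard {m : ℕ | Z < m ∧ m ≤ Z + Y ∧
          Pool.Agent.R463.PP.RunC (Sifted idf n r) q K a b m} := by
        unfold Residues Pool.Agent.R463.PP.RunC
        rw [next_eq]
        simp only [rough_iff]
      rw [e]
      exact g2
  refine ⟨⟨fun p hp hnp => rough_prime (by omega) (by omega) hp hnp, fun m hm hmn hg =>
    rough_fewf (by omega) (by omega) h5 hm hmn hg⟩, ?_, ?_⟩
  · intro Z Y hY a ha b hb
    obtain ⟨g1, g2⟩ := hmain Z Y hY a ha b hb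
    have hYV : 0 ≤ (Y : ℝ) * V n r := by rw [V_eq]; positivity
    have h6 := mul_le_mul_of_nonneg_right hηε hYV
    exact ⟨fun s t hst => (g1 s t hst).trans h6, g2.trans h6⟩
  · intro a ha b hb
    have hn1' : n ≤ n ^ 2 := by nlinarith
    -- an interval of length `n + 1` contains runs that end in it
    have key : ∀ L : ℕ, 1 ≤ L → Contains n r q K a b L (L + n) := by
      intro L hL
      have hS : ∀ l, ∃ m, l < m ∧ Sifted idf n r m := by
        intro l
        have hY : (n : ℝ) ^ θ ≤ ((n + 1 : ℕ) : ℝ) := by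
          calc (n : ℝ) ^ θ ≤ (n : ℝ) ^ (1 : ℝ) := Real.rpow_le_rpow_of_exponent_le hn1 hθ1
            _ = n := Real.rpow_one _
            _ ≤ ((n + 1 : ℕ) : ℝ) := by push_cast; linarith
        have h4 := (abs_le.1 (h2 idf hsys hV l (n + 1) hY)).1
        have h7 : 0 < ((n + 1 : ℕ) : ℝ) * Pool.Agent.R463.PS.V idf n r := by positivity
        have h5 : (0 : ℝ) < ((Set.ncard {m : ℕ | l < m ∧ m ≤ l + (n + 1) ∧ Sifted idf n r m} : ℕ) : ℝ) := by
          linarith
        have h6 : 0 < Set.ncard {m : ℕ | l < m ∧ m ≤ l + (n + 1) ∧ Sifted idf n r m} := by exact_mod_cast h5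
        obtain ⟨m, hm⟩ := Set.nonempty_of_ncard_ne_zero h6.ne'
        exact ⟨m, hm.1, hm.2.2⟩
      have hY : (n : ℝ) ^ θ ≤ ((n + 1 : ℕ) : ℝ) := by
        calc (n : ℝ) ^ θ ≤ (n : ℝ) ^ (1 : ℝ) := Real.rpow_le_rpow_of_exponent_le hn1 hθ1
          _ = n := Real.rpow_one _
          _ ≤ ((n + 1 : ℕ) : ℝ) := by push_cast; linarith
      have g2 := (abs_le.1 (hmain (L - 1) (n + 1) hY a ha b hb).2).1
      obtain ⟨W, hW⟩ : ∃ W : ℝ, W = ((n + 1 : ℕ) : ℝ) * V n r := ⟨_, rfl⟩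
      rw [← hW] at g2
      have hW0 : 0 < W := by rw [hW, V_eq]; positivity
      have hφK : (0 : ℝ) < (q.totient : ℝ) ^ (K + 1) := by positivity
      have hWbig : (K + 1 : ℝ) * (2 * (q.totient : ℝ) ^ (K + 1)) ≤ W := by
        have h8 : M * v ≤ W := by
          rw [hW, V_eq]
          rw [div_le_iff₀ (by positivity)] at hlow'
          calc M * v ≤ M * (Pool.Agent.R463.PS.V idf n r * Real.log (n : ℝ) ^ (1 * 1 + 1)) :=
                mul_le_mul_of_nonneg_left hlow' hM0.le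
            _ = (M * Real.log (n : ℝ) ^ (1 * 1 + 1)) * Pool.Agent.R463.PS.V idf n r := by ring
            _ ≤ _ := mul_le_mul_of_nonneg_right (hM1.trans hY) hV0.le
        have h9 : M * v = (K + 1 : ℝ) * (2 * (q.totient : ℝ) ^ (K + 1)) := by
          rw [hM]
          field_simp
        linarith
      have h10 : η * W ≤ W / (2 * (q.totient : ℝ) ^ (K + 1)) := by
        calc η * W ≤ 1 / (2 * (q.totient : ℝ) ^ (K + 1)) * W := mul_le_mul_of_nonneg_right hηφ hW0.le
          _ = _ := by ring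
      have h11 : W / (q.totient : ℝ) ^ (K + 1) = 2 * (W / (2 * (q.totient : ℝ) ^ (K + 1))) := by
        field_simp
      have h12 : (K + 1 : ℝ) ≤ W / (2 * (q.totient : ℝ) ^ (K + 1)) := by
        rw [le_div_iff₀ (by positivity)]
        exact hWbig
      have h13 : (K : ℝ) + 1 ≤ (Residues n r q K a b (L - 1) (n + 1) : ℝ) := by linarith
      have h14 : K + 1 ≤ Residues n r q K a b (L - 1) (n + 1) := by exact_mod_cast h13
      by_contra hcon
      have h15 : Residues n r q K a b (L - 1) (n + 1) ≤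
          Set.ncard {m : ℕ | m ≤ L + n ∧ (Sifted idf n r m ∧ L + n <
            (Pool.Agent.R463.PP.next (Sifted idf n r))^[K] m)} := by
        unfold Residues
        apply Set.ncard_le_ncard _ (fin_le _ _)
        rintro m ⟨m1, m2, m3, m4, m5⟩
        refine ⟨by omega, (rough_iff n r m).1 m3, ?_⟩
        by_contra hle
        apply hcon
        refine ⟨m, by omega, m3, m4, m5, ?_⟩
        rw [next_eq]
        omega
      have h16 := last hS (L + n) K
      omega
    constructor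
    · have h6 := key (n ^ 2 - n) (by
        have : n * 2 ≤ n ^ 2 := by nlinarith
        omega)
      have e : n ^ 2 - n + n = n ^ 2 := by omega
      rwa [e] at h6
    · exact key (n ^ 2) (by nlinarith)

end Pool.Agent.Results.MP_1e9cc8_nt.JointLaw
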