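import Mathlib
import Pool.Agent.R320.IT.FewSq

set_option autoImplicit false

/-!
# The integral test for windows around the squares with fewer than `k` members

The `k`-fold Oppermann conjecture asks for `k` primes in the intervals `[n² - n, n²]` and
`[n², n² + n]`.  Consider a random set of integers which are decided one after the other; only
integers coprime to a fixed `Q` can be chosen, and the conditional probability of choosing `n + 1`
(coprime to `Q`) given the past is `(Q / φ(Q)) / D n`, where `D` varies slowly,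
`|D (n + 1) - D n| ≤ (K / n) |D n|`, and `D n - log n` converges almost surely, to a possibly random
limit `C`.  (For `Q = 1`: Cramér's model, `C = 0`, and the Hawkins random sieve, for which `C` is a
non-degenerate random variable.)

Let `a, b ≥ 0` be ANY two functions with `(a(n) + b(n)) / (log n)² → λ ∈ (0, ∞)`.  The theorem
counts the `n` for which the window `[n² - a(n), n² + b(n)]` contains fewer than `k` members: with
`y(n) = (a(n) + b(n)) / (2 log n)` and `w(n) = y(n)^(k-1) / (k-1)! · exp (-y(n))`, their number up to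
`X` is almost surely asymptotic to `exp ((λ / 4) (C - Q / (2 φ(Q))))` times `∑_{n ≤ X} w(n)` if this
series diverges; if it converges then almost surely all but finitely many of the windows contain at
least `k` members.
-/

open MeasureTheory Filter
open scoped Topology

namespace Pool.Agent.Results.MP_1e9cc8_nt.KFoldIntegralTest

/-- the number of the positive elements `m` of `S` with `n² - a ≤ m ≤ n² + b` -/
noncomputable def num (S : Set ℕ) (n : ℕ) (a b : ℝ) : ℕ :=
  Set.ncard {m : ℕ | m ∈ S ∧ 1 ≤ m ∧ (n : ℝ) ^ 2 - a ≤ m ∧ (m : ℝ) ≤ (n : ℝ) ^ 2 + b}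

/-- the number of the `n ≤ X` for which the window contains fewer than `k` elements of `S` -/
noncomputable def count (S : Set ℕ) (k : ℕ) (a b : ℕ → ℝ) (X : ℕ) : ℕ :=
  Set.ncard {n : ℕ | n ≤ X ∧ num S n (a n) (b n) < k}

/-- the terms of the test series -/
noncomputable def w (k : ℕ) (a b : ℕ → ℝ) (n : ℕ) : ℝ :=
  ((a n + b n) / (2 * Real.log n)) ^ (k - 1) / (k - 1).factorial *
    Real.exp (-((a n + b n) / (2 * Real.log n)))

end Pool.Agent.Results.MP_1e9cc8_nt.KFoldIntegralTest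

open Pool.Agent.Results.MP_1e9cc8_nt.KFoldIntegralTest

/-- Let `A n` be the event that `n` belongs to a random set adapted to a filtration `ℱ`, let
`Q ≥ 1`, let no integer which is not coprime to `Q` be chosen, and let, for `n ≥ n₀` with `n + 1`
coprime to `Q`, the conditional probability of `A (n + 1)` given `ℱ n` be `(Q / φ(Q)) / D n`, where
`D n` is `ℱ n`-measurable, `|D (n + 1) - D n| ≤ (K / n) |D n|` for `n ≥ n₀` and `D n - log n`
converges, almost surely.  Let `k ≥ 1`, `a, b ≥ 0` and `(a(n) + b(n)) / (log n)² → λ > 0`.  Then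
almost surely, `C` being the limit of `D n - log n`: if `∑ w(n)` diverges, the number of the `n ≤ X`
for which `[n² - a(n), n² + b(n)]` contains fewer than `k` members, divided by `∑_{n ≤ X} w(n)`,
tends to `exp ((λ / 4) (C - Q / (2 φ(Q))))`; if it converges, then for all large `n` this window
contains at least `k` members. -/
theorem Pool.Agent.Results.MP_1e9cc8_nt.KFoldIntegralTest.result
    {Ω : Type} [mΩ : MeasurableSpace Ω] (μ : Measure Ω) [IsProbabilityMeasure μ]
    (ℱ : Filtration ℕ mΩ) (A : ℕ → Set Ω) (hA : ∀ n, MeasurableSet[ℱ n] (A n))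
    (Q : ℕ) (hQ : 0 < Q) (hcop : ∀ n, ¬ Nat.Coprime n Q → A n = ∅)
    (D : ℕ → Ω → ℝ) (hD : ∀ n, StronglyMeasurable[ℱ n] (D n)) (K : ℝ) (n₀ : ℕ)
    (hK : ∀ᵐ ω ∂μ, ∀ n, n₀ ≤ n → |D (n + 1) ω - D n ω| ≤ K / n * |D n ω|)
    (hd : ∀ᵐ ω ∂μ, ∀ n, n₀ ≤ n → Nat.Coprime (n + 1) Q →
      (μ[(A (n + 1)).indicator (fun _ => (1 : ℝ)) | ℱ n]) ω = (Q : ℝ) / Nat.totient Q / D n ω)
    (hC : ∀ᵐ ω ∂μ, ∃ C : ℝ, Tendsto (fun n : ℕ => D n ω - Real.log n) atTop (𝓝 C))
    (k : ℕ) (hk : 1 ≤ k) (a b : ℕ → ℝ) (ha0 : ∀ n, 0 ≤ a n) (hb0 : ∀ n, 0 ≤ b n)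
    (lam : ℝ) (hlam0 : 0 < lam)
    (hlam : Tendsto (fun n : ℕ => (a n + b n) / Real.log n ^ 2) atTop (𝓝 lam)) :
    ∀ᵐ ω ∂μ, ∃ C : ℝ, Tendsto (fun n : ℕ => D n ω - Real.log n) atTop (𝓝 C) ∧
      (¬ Summable (w k a b) →
        Tendsto (fun X : ℕ => (count {j | ω ∈ A j} k a b X : ℝ) / ∑ n ∈ Finset.range (X + 1), w k a b n) atTop
          (𝓝 (Real.exp (lam / 4 * (C - (Q : ℝ) / Nat.totient Q / 2))))) ∧
      (Summable (w k a b) → ∀ᶠ n : ℕ in atTop, k ≤ num {j | ω ∈ A j} n (a n) (b n)) := by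
  filter_upwards [hC, Pool.Agent.R320.IT.squares_few (μ := μ) (ℱ := ℱ) (A := A) hA hQ hcop hD hK hd ha0 hb0
    hlam0 hlam (k - 1)] with ω ⟨C, hC⟩ h
  obtain ⟨h1, h2⟩ := h C hC
  have e : ∀ n : ℕ, Pool.Agent.R320.IT.num {j | ω ∈ A j} n (a n) (b n) ≤ k - 1 ↔
      num {j | ω ∈ A j} n (a n) (b n) < k := by
    intro n
    have e1 : Pool.Agent.R320.IT.num {j | ω ∈ A j} n (a n) (b n) = num {j | ω ∈ A j} n (a n) (b n) := rfl
    rw [e1]
    omega
  simp only [e] at h1 h2
  refine ⟨C, hC, h1, fun hs => ?_⟩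
  filter_upwards [h2 hs] with n hn
  exact not_lt.1 hn
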