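import Mathlib
import Pool.Agent.H636.FW.Spec

set_option autoImplicit false

/-!
# How often are there few (many) members near the squares, in random models of the primes

The question (the `k`-fold Oppermann conjecture) asks whether both `[n² - n, n²]` and `[n², n² + n]`
contain at least `k` primes for all large `n`.  We study it in EVERY sequential random model of the
primes: the integers are decided one after the other, only integers coprime to a fixed `Q` can be
chosen, and the conditional probability of choosing `n + 1` (coprime to `Q`) given the past is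
asymptotic to `(Q / φ(Q)) / log n`; no independence is assumed (for `Q = 1` Cramér's model and the
Hawkins random sieve are examples).  A part of length `c (log n)²` of one of the two intervals is
expected to contain `(c / 2) log n` members.  We determine exactly how often it contains at most
(at least) `s` times this number of members, for every `s ≠ 1`: with
`ρ = (c / 2) (s log s - s + 1)`,

* if `ρ < 1`, almost surely the number of such `n ≤ N` is `N ^ (1 - ρ + o(1))`;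
* if `ρ > 1`, almost surely there are only finitely many such `n`.
-/

open MeasureTheory Filter
open scoped Topology

namespace Pool.Agent.Results.MP_1e9cc8_nt.SpectrumOfCounts

/-- the number of members of `S` in the interval `(x, x + y]` -/
noncomputable def countAfter (S : Set ℕ) (x : ℕ) (y : ℝ) : ℕ :=
  Set.ncard {a : ℕ | a ∈ S ∧ x < a ∧ (a : ℝ) ≤ (x : ℝ) + y}

/-- `(t n, t n + c (log n)²]` contains at most `s` times `(c / 2) log n` members of `S` -/
def Low (S : Set ℕ) (t : ℕ → ℕ) (c s : ℝ) (n : ℕ) : Prop :=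
  (countAfter S (t n) (c * Real.log n ^ 2) : ℝ) ≤ s * (c / 2) * Real.log n

/-- `(t n, t n + c (log n)²]` contains at least `s` times `(c / 2) log n` members of `S` -/
def High (S : Set ℕ) (t : ℕ → ℕ) (c s : ℝ) (n : ℕ) : Prop :=
  s * (c / 2) * Real.log n ≤ (countAfter S (t n) (c * Real.log n ^ 2) : ℝ)

/-- the number of `n ≤ N` with the property `P` -/
noncomputable def upTo (P : ℕ → Prop) (N : ℕ) : ℕ := Set.ncard {n : ℕ | n ≤ N ∧ P n}

open Pool.Agent.R528.RM Pool.Agent.H636.FW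

lemma countAfter_eq {Ω : Type} {A : ℕ → Set Ω} (ω : Ω) (x : ℕ) {y : ℝ} (hy : 0 ≤ y) :
    countAfter {k | ω ∈ A k} x y = cnt A x ⌊y⌋₊ ω := by
  rw [cnt_eq_ncard]
  unfold countAfter
  congr 1
  ext a
  simp only [Set.mem_ofPred_eq]
  refine and_congr_right fun _ => and_congr_right fun hx => ?_
  obtain ⟨b, rfl⟩ : ∃ b, a = x + b := ⟨a - x, by omega⟩
  push_cast
  rw [add_le_add_iff_left, add_le_add_iff_left, Nat.le_floor_iff hy]

lemma low_iff {Ω : Type} {A : ℕ → Set Ω} (ω : Ω) (t : ℕ → ℕ) {c s : ℝ} (hc : 0 < c) (hs0 : 0 < s)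
    (hs1 : s < 1) (n : ℕ) : Low {k | ω ∈ A k} t c s n ↔
      cnt A (t n) ⌊c * Real.log n ^ 2⌋₊ ω ∈ lev s (c / 2) n := by
  unfold Low lev
  rw [countAfter_eq ω (t n) (show 0 ≤ c * Real.log n ^ 2 by positivity), Set.mem_ofPred_eq,
    ← Real.rpow_natCast s, Real.rpow_le_rpow_left_iff_of_base_lt_one hs0 hs1]

lemma high_iff {Ω : Type} {A : ℕ → Set Ω} (ω : Ω) (t : ℕ → ℕ) {c s : ℝ} (hc : 0 < c)
    (hs1 : 1 < s) (n : ℕ) : High {k | ω ∈ A k} t c s n ↔
      cnt A (t n) ⌊c * Real.log n ^ 2⌋₊ ω ∈ lev s (c / 2) n := by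
  unfold High lev
  rw [countAfter_eq ω (t n) (show 0 ≤ c * Real.log n ^ 2 by positivity), Set.mem_ofPred_eq,
    ← Real.rpow_natCast s, Real.rpow_le_rpow_left_iff hs1]

lemma upTo_eq {Ω : Type} {A : ℕ → Set Ω} (ω : Ω) (t : ℕ → ℕ) {c s : ℝ} {P : ℕ → Prop}
    (hP : ∀ n, P n ↔ cnt A (t n) ⌊c * Real.log n ^ 2⌋₊ ω ∈ lev s (c / 2) n) (N : ℕ) :
    upTo P N = dev A t (fun j => ⌊c * Real.log j ^ 2⌋₊) s (c / 2) N ω := by
  unfold upTo dev
  rw [← Set.ncard_coe_finset]
  congr 1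
  ext k
  simp only [Set.mem_ofPred_eq, Finset.coe_filter, Finset.mem_range]
  rw [hP k, Nat.lt_succ_iff]

lemma spar_t {c : ℝ} (hc : 0 < c) {t : ℕ → ℕ} (ht : ∀ᶠ n : ℕ in atTop,
      n ^ 2 - n ≤ t n ∧ (t n : ℝ) + c * Real.log n ^ 2 ≤ (n : ℝ) ^ 2 + n) :
    Spar t (fun j => ⌊c * Real.log j ^ 2⌋₊) (c / 2) := by
  have hnat : ∀ᶠ j : ℕ in atTop, t j + ⌊c * Real.log j ^ 2⌋₊ ≤ j ^ 2 + j := by
    filter_upwards [ht] with j hj
    have h1 : ((⌊c * Real.log j ^ 2⌋₊ : ℕ) : ℝ) ≤ c * Real.log j ^ 2 := Nat.floor_le (by positivity)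
    have h2 : (t j : ℝ) + ((⌊c * Real.log j ^ 2⌋₊ : ℕ) : ℝ) ≤ (j : ℝ) ^ 2 + j := by
      linarith [hj.2]
    exact_mod_cast h2
  apply spar_of hc
  · filter_upwards [hnat, (tendsto_add_atTop_nat 1).eventually ht] with j h1 h2
    have h3 : (j + 1) ^ 2 - (j + 1) = j ^ 2 + j := by
      have : (j + 1) ^ 2 = j ^ 2 + j + (j + 1) := by ring
      omega
    have := h2.1
    omega
  · filter_upwards [ht, hnat, eventually_ge_atTop 2] with k h1 h2 h3
    have h4 : 2 * k ≤ k ^ 2 := by nlinarith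
    have h5 := h1.1
    refine ⟨by omega, ?_⟩
    have h6 : (3 * k) ^ 2 = 9 * k ^ 2 := by ring
    omega

end Pool.Agent.Results.MP_1e9cc8_nt.SpectrumOfCounts

open Pool.Agent.Results.MP_1e9cc8_nt.SpectrumOfCounts

/-- Let `A n` be the event that `n` belongs to a random set adapted to a filtration `ℱ`, let
`Q ≥ 1`, let no integer which is not coprime to `Q` be chosen, and let the conditional probability of
`A (n + 1)` given `ℱ n`, times `log n`, tend to `Q / φ(Q)` along the `n` with `n + 1` coprime to `Q`,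
almost surely.  Let `c > 0` and let `t n` be arbitrary starting points such that the window
`(t n, t n + c (log n)²]` is contained in `[n² - n, n² + n]` for all large `n` (for example in one
of the two Oppermann intervals).  Let `s > 0`, `s ≠ 1`, `ρ = (c / 2) (s log s - s + 1)`; consider
the `n` whose window contains at most `s (c / 2) log n` members if `s < 1`, at least
`s (c / 2) log n` members if `s > 1`.
(1) If `ρ < 1`, then almost surely, for every `ε > 0` and all large `N`, the number of these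
`n ≤ N` lies between `N ^ (1 - ρ - ε)` and `N ^ (1 - ρ + ε)`.
(2) If `ρ > 1`, then almost surely there are only finitely many such `n`. -/
theorem Pool.Agent.Results.MP_1e9cc8_nt.SpectrumOfCounts.result
    {Ω : Type} [mΩ : MeasurableSpace Ω] (μ : Measure Ω) [IsProbabilityMeasure μ]
    (ℱ : Filtration ℕ mΩ) (A : ℕ → Set Ω) (hA : ∀ n, MeasurableSet[ℱ n] (A n))
    (Q : ℕ) (hQ : 0 < Q) (hcop : ∀ n, ¬ Nat.Coprime n Q → A n = ∅)
    (hd : ∀ᵐ ω ∂μ, Tendsto (fun n : ℕ =>
      (μ[(A (n + 1)).indicator (fun _ => (1 : ℝ)) | ℱ n]) ω * Real.log n)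
      (atTop ⊓ 𝓟 {n : ℕ | Nat.Coprime (n + 1) Q}) (𝓝 ((Q : ℝ) / Nat.totient Q)))
    (c : ℝ) (hc : 0 < c) (t : ℕ → ℕ) (ht : ∀ᶠ n : ℕ in atTop, n ^ 2 - n ≤ t n ∧
      (t n : ℝ) + c * Real.log n ^ 2 ≤ (n : ℝ) ^ 2 + n)
    (s ρ : ℝ) (hs : 0 < s) (hρ : ρ = c / 2 * (s * Real.log s - s + 1)) :
    (ρ < 1 → ∀ᵐ ω ∂μ, ∀ ε : ℝ, 0 < ε → ∀ᶠ N : ℕ in atTop,
      (s < 1 → (N : ℝ) ^ (1 - ρ - ε) ≤ upTo (Low {k | ω ∈ A k} t c s) N ∧
        (upTo (Low {k | ω ∈ A k} t c s) N : ℝ) ≤ (N : ℝ) ^ (1 - ρ + ε)) ∧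
      (1 < s → (N : ℝ) ^ (1 - ρ - ε) ≤ upTo (High {k | ω ∈ A k} t c s) N ∧
        (upTo (High {k | ω ∈ A k} t c s) N : ℝ) ≤ (N : ℝ) ^ (1 - ρ + ε))) ∧
    (1 < ρ → ∀ᵐ ω ∂μ, (s < 1 → {n : ℕ | Low {k | ω ∈ A k} t c s n}.Finite) ∧
      (1 < s → {n : ℕ | High {k | ω ∈ A k} t c s n}.Finite)) := by
  have hprof := Pool.Agent.R528.RM.dens_profile (μ := μ) (ℱ := ℱ) hA Q hQ hcop hd
  have hsp := spar_t hc ht
  have hc2 : 0 < c / 2 := by positivity
  refine ⟨fun hρ1 => ?_, fun hρ1 => ?_⟩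
  · filter_upwards [Pool.Agent.H636.FW.dev_law (μ := μ) (ℱ := ℱ) hA hQ hprof hsp hc2 hs hρ hρ1]
      with ω hω ε hε
    filter_upwards [hω ε hε] with N hN
    refine ⟨fun hs1 => ?_, fun hs1 => ?_⟩
    · rw [upTo_eq ω t (low_iff ω t hc hs hs1)]
      exact hN
    · rw [upTo_eq ω t (high_iff ω t hc hs1)]
      exact hN
  · have h1 : 1 < c / 2 * Pool.Agent.R528.RM.II s := by
      rw [hρ] at hρ1
      exact hρ1
    have hfin : ∀ {P : ℕ → Prop}, (∀ᶠ n : ℕ in atTop, ¬ P n) → {n : ℕ | P n}.Finite := by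
      intro P hP
      obtain ⟨M, hM⟩ := eventually_atTop.1 hP
      refine (Set.finite_lt_nat M).subset fun n hn => ?_
      by_contra h
      exact hM n (not_lt.1 h) hn
    filter_upwards [Pool.Agent.R528.RM.spar_ev (μ := μ) (ℱ := ℱ) hA hQ hprof hsp hc2 hs h1
      (Pool.Agent.H636.FW.lev s (c / 2)) (fun x k hk => hk)] with ω hω
    refine ⟨fun hs1 => hfin ?_, fun hs1 => hfin ?_⟩
    · filter_upwards [hω] with n hn
      rw [low_iff ω t hc hs hs1]
      exact hn
    · filter_upwards [hω] with n hn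
      rw [high_iff ω t hc hs1]
      exact hn
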