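import Mathlib

set_option autoImplicit false

/-!
# Lower bounds for the admissible thresholds in the k-fold Oppermann conjecture

The k-fold Oppermann conjecture specifies thresholds `N(2) = 16`, `N(3) = 36`, `N(4) = 46`,
`N(5) = 76`, `N(6) = N(7) = 79`, `N(8) = 85`, `N(9) = 118`, `N(10) = 136`, `N(11) = N(12) = 155`,
`N(13) = 188` such that for every `n > N(k)` both intervals contain at least `k` primes.  Ten of
these twelve values are not admissible: the next integer `n = N(k) + 1` is a counterexample for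
`k = 2, 3, 4, 5, 7, 8, 9, 10, 12, 13`.
-/

namespace Pool.Agent.Results.MP_1e9cc8_nt.ThresholdBounds

/-- the number of primes in the closed interval `[a, b]` -/
def primesIn (a b : ℕ) : ℕ := ((Finset.Icc a b).filter Nat.Prime).card

/-- `N` is an admissible threshold for `k`: for every `n > N` both intervals `[n² - n, n²]` and
`[n², n² + n]` contain at least `k` primes -/
def Admissible (k N : ℕ) : Prop :=
  ∀ n : ℕ, N < n → k ≤ primesIn (n ^ 2 - n) (n ^ 2) ∧ k ≤ primesIn (n ^ 2) (n ^ 2 + n)

lemma bound (k m a b : ℕ) (hab : (a = m ^ 2 - m ∧ b = m ^ 2) ∨ (a = m ^ 2 ∧ b = m ^ 2 + m))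
    (h : primesIn a b < k) : ∀ N : ℕ, Admissible k N → m ≤ N := by
  intro N hN
  by_contra hcon
  push Not at hcon
  have h1 := hN m hcon
  rcases hab with ⟨rfl, rfl⟩ | ⟨rfl, rfl⟩
  · omega
  · omega

/-- a check that all integers of `[a, a + len)` outside the list `L` have a divisor in the list `D` -/
def chk (D L : List ℕ) (a len : ℕ) : Bool :=
  (List.range' a len).all (fun x => L.contains x || D.any (fun d => x % d == 0 && d < x && 1 < d))

lemma count_le (D L : List ℕ) (a len k : ℕ) (h : chk D L a len = true) (hL : L.length < k)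
    (hlen : 0 < len) : primesIn a (a + len - 1) < k := by
  unfold primesIn
  refine lt_of_le_of_lt ?_ hL
  refine le_trans (Finset.card_le_card (t := L.toFinset) ?_) (List.toFinset_card_le L)
  intro x hx
  rw [Finset.mem_filter, Finset.mem_Icc] at hx
  obtain ⟨⟨h1, h2⟩, h3⟩ := hx
  rw [List.mem_toFinset]
  unfold chk at h
  rw [List.all_eq_true] at h
  have h4 := h x (by rw [List.mem_range'_1]; omega)
  rw [Bool.or_eq_true] at h4
  rcases h4 with h4 | h4
  · simpa using h4
  · exfalso
    rw [List.any_eq_true] at h4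
    obtain ⟨d, -, hd⟩ := h4
    simp only [Bool.and_eq_true, beq_iff_eq, decide_eq_true_eq] at hd
    obtain ⟨⟨hd1, hd2⟩, hd3⟩ := hd
    rcases (Nat.dvd_prime h3).1 (Nat.dvd_of_mod_eq_zero hd1) with h5 | h5 <;> omega

/-- the primes below `190` -/
def D : List ℕ := [2, 3, 5, 7, 11, 13, 17, 19, 23, 29, 31, 37, 41, 43, 47, 53, 59, 61, 67, 71, 73, 79, 83,
  89, 97, 101, 103, 107, 109, 113, 127, 131, 137, 139, 149, 151, 157, 163, 167, 173, 179, 181]

/-- Every admissible threshold satisfies the following lower bounds; in particular the values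
`16, 36, 46, 76, 79, 85, 118, 136, 155, 188` for `k = 2, 3, 4, 5, 7, 8, 9, 10, 12, 13` are not
admissible. -/
theorem result :
    (∀ N, Admissible 2 N → 17 ≤ N) ∧ (∀ N, Admissible 3 N → 37 ≤ N) ∧
    (∀ N, Admissible 4 N → 47 ≤ N) ∧ (∀ N, Admissible 5 N → 77 ≤ N) ∧
    (∀ N, Admissible 7 N → 80 ≤ N) ∧ (∀ N, Admissible 8 N → 86 ≤ N) ∧
    (∀ N, Admissible 9 N → 119 ≤ N) ∧ (∀ N, Admissible 10 N → 137 ≤ N) ∧
    (∀ N, Admissible 12 N → 156 ≤ N) ∧ (∀ N, Admissible 13 N → 189 ≤ N) := by
  exact ⟨bound 2 17 289 306 (Or.inr ⟨rfl, rfl⟩) (count_le D [293] 289 18 2 (by decide +kernel) (by decide) (by norm_num)),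
    bound 3 37 1332 1369 (Or.inl ⟨rfl, rfl⟩) (count_le D [1361, 1367] 1332 38 3 (by decide +kernel) (by decide) (by norm_num)),
    bound 4 47 2162 2209 (Or.inl ⟨rfl, rfl⟩) (count_le D [2179, 2203, 2207] 2162 48 4 (by decide +kernel) (by decide) (by norm_num)),
    bound 5 77 5929 6006 (Or.inr ⟨rfl, rfl⟩) (count_le D [5939, 5953, 5981, 5987] 5929 78 5 (by decide +kernel) (by decide) (by norm_num)),
    bound 7 80 6400 6480 (Or.inr ⟨rfl, rfl⟩) (count_le D [6421, 6427, 6449, 6451, 6469, 6473] 6400 81 7 (by decide +kernel) (by decide) (by norm_num)),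
    bound 8 86 7310 7396 (Or.inl ⟨rfl, rfl⟩) (count_le D [7321, 7331, 7333, 7349, 7351, 7369, 7393] 7310 87 8 (by decide +kernel) (by decide) (by norm_num)),
    bound 9 119 14161 14280 (Or.inr ⟨rfl, rfl⟩) (count_le D [14173, 14177, 14197, 14207, 14221, 14243, 14249, 14251] 14161 120 9 (by decide +kernel) (by decide) (by norm_num)),
    bound 10 137 18769 18906 (Or.inr ⟨rfl, rfl⟩) (count_le D [18773, 18787, 18793, 18797, 18803, 18839, 18859, 18869, 18899] 18769 138 10 (by decide +kernel) (by decide) (by norm_num)),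
    bound 12 156 24180 24336 (Or.inl ⟨rfl, rfl⟩) (count_le D [24181, 24197, 24203, 24223, 24229, 24239, 24247, 24251, 24281, 24317, 24329] 24180 157 12 (by decide +kernel) (by decide) (by norm_num)),
    bound 13 189 35532 35721 (Or.inl ⟨rfl, rfl⟩) (count_le D [35533, 35537, 35543, 35569, 35573, 35591, 35593, 35597, 35603, 35617, 35671, 35677] 35532 190 13 (by decide +kernel) (by decide) (by norm_num))⟩

end Pool.Agent.Results.MP_1e9cc8_nt.ThresholdBounds
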